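import Pool.Agent.Tracks.Milnor
import Mathlib.GroupTheory.Schreier
import Mathlib.GroupTheory.ResiduallyFinite

/-!
# Groups of subexponential growth: subgroups and quotients; the derived series of a subgroup
-/

set_option autoImplicit false

namespace Pool.Agent.H2SlowRed

open Pool.Agent.FullLaws Pool.Agent.Tracks

variable {G H : Type} [Group G] [Group H]

/-- finitely generated, of subexponential growth -/
def SubG (G : Type) [Group G] : Prop :=
  ∃ S : Finset G, Subgroup.closure (S : Set G) = ⊤ ∧ Subexp S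

theorem SubG.fg (h : SubG G) : Group.FG G := by
  obtain ⟨S, hS, -⟩ := h
  exact Group.fg_iff.2 ⟨S, hS, S.finite_toSet⟩

theorem lift_list (φ : G →* H) [DecidableEq H] (S : Finset G) :
    ∀ l : List H, (∀ x ∈ l, x ∈ S.image φ ∨ x⁻¹ ∈ S.image φ) →
      ∃ l' : List G, l'.length = l.length ∧ (∀ x ∈ l', x ∈ S ∨ x⁻¹ ∈ S) ∧
        φ l'.prod = l.prod := by
  intro l
  induction l with
  | nil => exact fun _ => ⟨[], rfl, by simp, by simp⟩
  | cons a l ih =>
    intro h
    obtain ⟨l', h1, h2, h3⟩ := ih fun x hx => h x (List.mem_cons_of_mem _ hx)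
    obtain ⟨b, hb, hb'⟩ : ∃ b : G, (b ∈ S ∨ b⁻¹ ∈ S) ∧ φ b = a := by
      rcases h a List.mem_cons_self with h | h
      · obtain ⟨b, hb, rfl⟩ := Finset.mem_image.1 h
        exact ⟨b, Or.inl hb, rfl⟩
      · obtain ⟨b, hb, hb'⟩ := Finset.mem_image.1 h
        exact ⟨b⁻¹, Or.inr (by rwa [inv_inv]), by rw [map_inv, hb', inv_inv]⟩
    refine ⟨b :: l', by simp [h1], ?_, by simp [hb', h3]⟩
    intro x hx
    rcases List.mem_cons.1 hx with rfl | hx
    · exact hb
    · exact h2 x hx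

theorem SubG.map (h : SubG G) (φ : G →* H) (hφ : Function.Surjective φ) : SubG H := by
  classical
  obtain ⟨S, hS, hsub⟩ := h
  refine ⟨S.image φ, ?_, fun c hc => ?_⟩
  · rw [Finset.coe_image, ← MonoidHom.map_closure, hS, ← MonoidHom.range_eq_map,
      MonoidHom.range_eq_top.2 hφ]
  · obtain ⟨N, hN⟩ := hsub c hc
    refine ⟨N, fun n hn => lt_of_le_of_lt ?_ (hN n hn)⟩
    have h1 : ballL (S.image φ) n ⊆ φ '' ballL S n := by
      rintro _ ⟨l, h1, h2, rfl⟩
      obtain ⟨l', h3, h4, h5⟩ := lift_list φ S l h2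
      exact ⟨l'.prod, ⟨l', by omega, h4, rfl⟩, h5⟩
    exact_mod_cast (Set.ncard_le_ncard h1 ((ballL_finite S n).image φ)).trans
      (Set.ncard_image_le (ballL_finite S n))

theorem list_ballL {S : Finset G} {e : ℕ} {H : Subgroup G} {T : Finset H}
    (hT : ∀ t ∈ T, (t : G) ∈ ballL S e ∧ ((t : G))⁻¹ ∈ ballL S e) :
    ∀ l : List H, (∀ x ∈ l, x ∈ T ∨ x⁻¹ ∈ T) → ((l.prod : H) : G) ∈ ballL S (e * l.length) := by
  intro l
  induction l with
  | nil => exact fun _ => ⟨[], by simp, by simp, by simp⟩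
  | cons a l ih =>
    intro h
    have h1 := ih fun x hx => h x (List.mem_cons_of_mem _ hx)
    have h2 : (a : G) ∈ ballL S e := by
      rcases h a List.mem_cons_self with h | h
      · exact (hT a h).1
      · have := (hT _ h).2
        rwa [Subgroup.coe_inv, inv_inv] at this
    have h3 := ballL_mul h2 h1
    rw [List.prod_cons, Subgroup.coe_mul, List.length_cons]
    rwa [show e * (l.length + 1) = e + e * l.length by ring]

theorem SubG.sub (h : SubG G) {H : Subgroup G} (hH : H.FG) : SubG H := by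
  obtain ⟨S, hS, hsub⟩ := h
  obtain ⟨T₀, hT₀, hfin⟩ := Group.fg_iff.1 ((Group.fg_iff_subgroup_fg H).2 hH)
  obtain ⟨T, rfl⟩ := hfin.exists_finset_coe
  have h1 : ∀ t : H, ∃ e, (t : G) ∈ ballL S e ∧ ((t : G))⁻¹ ∈ ballL S e := by
    intro t
    obtain ⟨e, he⟩ := exists_ballL hS (t : G)
    obtain ⟨e', he'⟩ := exists_ballL hS ((t : G))⁻¹
    exact ⟨max e e', ballL_mono (le_max_left _ _) he, ballL_mono (le_max_right _ _) he'⟩
  choose f hf using h1
  obtain ⟨e, he⟩ : ∃ e : ℕ, e = T.sup f + 1 := ⟨_, rfl⟩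
  have hT : ∀ t ∈ T, (t : G) ∈ ballL S e ∧ ((t : G))⁻¹ ∈ ballL S e := by
    intro t ht
    have h2 : f t ≤ e := by
      rw [he]
      exact (Finset.le_sup (f := f) ht).trans (Nat.le_succ _)
    exact ⟨ballL_mono h2 (hf t).1, ballL_mono h2 (hf t).2⟩
  have he0 : e ≠ 0 := by omega
  refine ⟨T, hT₀, fun c hc => ?_⟩
  obtain ⟨N, hN⟩ := hsub (c ^ ((e : ℝ)⁻¹)) (Real.one_lt_rpow hc (inv_pos.2 (by positivity)))
  refine ⟨N, fun n hn => ?_⟩
  have h3 := hN (e * n) (hn.trans (Nat.le_mul_of_pos_left n (Nat.pos_of_ne_zero he0)))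
  rw [pow_mul, Real.rpow_inv_natCast_pow (by linarith) he0] at h3
  refine lt_of_le_of_lt ?_ h3
  have h4 : (ballL T n).ncard ≤ (ballL S (e * n)).ncard := by
    refine Set.ncard_le_ncard_of_injOn (fun x : H => (x : G)) ?_
      (Subtype.val_injective.injOn) (ballL_finite S _)
    rintro _ ⟨l, h5, h6, rfl⟩
    exact ballL_mono (Nat.mul_le_mul_left e h5) (list_ballL hT l h6)
  exact_mod_cast h4

/-! ### the derived series of a subgroup -/

/-- the derived series of the subgroup `P` -/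
def ds (P : Subgroup G) : ℕ → Subgroup G
  | 0 => P
  | n + 1 => ⁅ds P n, ds P n⁆

theorem ds_mono {P Q : Subgroup G} (h : P ≤ Q) (n : ℕ) : ds P n ≤ ds Q n := by
  induction n with
  | zero => exact h
  | succ n ih => exact Subgroup.commutator_mono ih ih

theorem ds_map (φ : G →* H) (P : Subgroup G) (n : ℕ) : (ds P n).map φ = ds (P.map φ) n := by
  induction n with
  | zero => rfl
  | succ n ih =>
    show (⁅ds P n, ds P n⁆ : Subgroup G).map φ = ⁅ds (P.map φ) n, ds (P.map φ) n⁆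
    rw [Subgroup.map_commutator, ih]

theorem ds_normal {P : Subgroup G} (hP : P.Normal) (n : ℕ) : (ds P n).Normal := by
  induction n with
  | zero => exact hP
  | succ n ih => exact Subgroup.commutator_normal _ _

theorem comm_self_le (P : Subgroup G) : ⁅P, P⁆ ≤ P :=
  Subgroup.commutator_le.2 fun _ ha _ hb =>
    mul_mem (mul_mem (mul_mem ha hb) (inv_mem ha)) (inv_mem hb)

theorem ds_succ_le (P : Subgroup G) (n : ℕ) : ds P (n + 1) ≤ ds P n := comm_self_le _

theorem ds_le (P : Subgroup G) (n : ℕ) : ds P n ≤ P := by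
  induction n with
  | zero => exact le_rfl
  | succ n ih => exact (ds_succ_le P n).trans ih

theorem comm_sup {N : Subgroup G} (hN : N.Normal) (A B : Subgroup G) :
    ⁅N ⊔ A, N ⊔ B⁆ ≤ N ⊔ ⁅A, B⁆ := by
  have h1 : (⁅N ⊔ A, N ⊔ B⁆ : Subgroup G).map (QuotientGroup.mk' N) ≤
      (⁅A, B⁆ : Subgroup G).map (QuotientGroup.mk' N) := by
    rw [Subgroup.map_commutator, Subgroup.map_commutator, Subgroup.map_sup, Subgroup.map_sup,
      (Subgroup.map_eq_bot_iff N).2 (by rw [QuotientGroup.ker_mk']), bot_sup_eq, bot_sup_eq]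
  rw [Subgroup.map_le_iff_le_comap, Subgroup.comap_map_eq, QuotientGroup.ker_mk',
    sup_comm ⁅A, B⁆ N] at h1
  exact h1

theorem ds_sup {N : Subgroup G} (hN : N.Normal) (P : Subgroup G) (n : ℕ) :
    ds (N ⊔ P) n ≤ N ⊔ ds P n := by
  induction n with
  | zero => exact le_rfl
  | succ n ih => exact (Subgroup.commutator_mono ih ih).trans (comm_sup hN _ _)

/-- `G` is virtually solvable modulo `K` -/
def VSm (K : Subgroup G) : Prop := ∃ P : Subgroup G, P.FiniteIndex ∧ ∃ n, ds P n ≤ K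

theorem VSm.mono {K K' : Subgroup G} (h : VSm K) (hK : K ≤ K') : VSm K' := by
  obtain ⟨P, h1, n, h2⟩ := h
  exact ⟨P, h1, n, h2.trans hK⟩

theorem VSm.map {K : Subgroup G} (h : VSm K) (φ : G →* H) (hφ : Function.Surjective φ) :
    VSm (K.map φ) := by
  obtain ⟨P, h1, n, h2⟩ := h
  refine ⟨P.map φ, ?_, n, ?_⟩
  · exact ⟨fun h3 => h1.index_ne_zero (Nat.eq_zero_of_zero_dvd
      (h3 ▸ Subgroup.index_map_dvd P hφ))⟩
  · rw [← ds_map]
    exact Subgroup.map_mono h2

end Pool.Agent.H2SlowRed
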