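import Pool.Agent.H2SlowRed.Fg
import Mathlib.GroupTheory.FiniteAbelian.Basic

/-!
# Virtually solvable groups of subexponential growth are residually finite
-/

set_option autoImplicit false

namespace Pool.Agent.H2SlowRed

open Pool.Agent.FullLaws Pool.Agent.Tracks

/-- Zorn's lemma for normal subgroups -/
theorem exists_max {G : Type} [Group G] (p : Subgroup G → Prop) (h0 : p ⊥)
    (hc : ∀ c : Set (Subgroup G), c.Nonempty → IsChain (· ≤ ·) c →
      (∀ N ∈ c, N.Normal ∧ p N) → (sSup c).Normal → p (sSup c)) :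
    ∃ N : Subgroup G, N.Normal ∧ p N ∧ ∀ N' : Subgroup G, N'.Normal → p N' → N ≤ N' → N' = N := by
  obtain ⟨N, -, hN⟩ := zorn_le_nonempty₀ {N : Subgroup G | N.Normal ∧ p N} (by
    intro c hcs hch y hy
    have hne : c.Nonempty := ⟨y, hy⟩
    have hnor : (sSup c).Normal := by
      refine ⟨fun x hx g => ?_⟩
      rw [Subgroup.mem_sSup_of_directedOn hne hch.directedOn] at hx ⊢
      obtain ⟨N, h1, h2⟩ := hx
      exact ⟨N, h1, (hcs h1).1.conj_mem x h2 g⟩
    exact ⟨sSup c, ⟨hnor, hc c hne hch (fun N h => hcs h) hnor⟩, fun z hz => le_sSup hz⟩)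
    ⊥ ⟨inferInstance, h0⟩
  exact ⟨N, hN.prop.1, hN.prop.2, fun N' h1 h2 h3 => le_antisymm (hN.2 ⟨h1, h2⟩ h3) h3⟩

theorem exists_max_notMem {G : Type} [Group G] {x : G} (hx : x ≠ 1) :
    ∃ N : Subgroup G, N.Normal ∧ x ∉ N ∧
      ∀ N' : Subgroup G, N'.Normal → x ∉ N' → N ≤ N' → N' = N := by
  refine exists_max (fun N => x ∉ N) (by simpa using hx) fun c hne hch h _ hx' => ?_
  rw [Subgroup.mem_sSup_of_directedOn hne hch.directedOn] at hx'
  obtain ⟨N, h1, h2⟩ := hx'
  exact (h N h1).2 h2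

/-! ### finitely generated abelian groups -/

theorem ab_finite {Z : Type} [CommGroup Z] [Group.FG Z] {m : ℕ} (hm : 0 < m)
    (h : ∀ z : Z, z ^ m = 1) : Finite Z := by
  exact CommGroup.finite_of_fg_isMulTorsion Z
    fun z => isOfFinOrder_iff_pow_eq_one.2 ⟨m, hm, h z⟩

theorem ab_sep {Z : Type} [CommGroup Z] [Group.FG Z] {x : Z} (hx : x ≠ 1) :
    ∃ m : ℕ, 0 < m ∧ ∀ z : Z, z ^ m ≠ x := by
  obtain ⟨W, -, hW, hmax⟩ := exists_max_notMem hx
  have h1 : ∀ q : Z ⧸ W, q ≠ 1 → (x : Z ⧸ W) ∈ Subgroup.zpowers q := by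
    intro q hq
    by_contra hcon
    have h2 : (Subgroup.zpowers q).comap (QuotientGroup.mk' W) = W := by
      refine hmax _ inferInstance (fun h => hcon h) ?_
      intro w hw
      rw [Subgroup.mem_comap]
      have : QuotientGroup.mk' W w = 1 := (QuotientGroup.eq_one_iff w).2 hw
      rw [this]
      exact one_mem _
    obtain ⟨z, rfl⟩ := QuotientGroup.mk_surjective q
    have h3 : z ∈ (Subgroup.zpowers (z : Z ⧸ W)).comap (QuotientGroup.mk' W) :=
      Subgroup.mem_zpowers _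
    rw [h2] at h3
    exact hq ((QuotientGroup.eq_one_iff z).2 h3)
  have hx1 : (x : Z ⧸ W) ≠ 1 := fun h => hW ((QuotientGroup.eq_one_iff x).1 h)
  have h2 : ∀ q : Z ⧸ W, ∃ k : ℕ, 0 < k ∧ q ^ k = 1 := by
    intro q
    by_contra hcon
    push Not at hcon
    have h3 : ∀ k : ℤ, k ≠ 0 → q ^ k ≠ 1 := by
      intro k hk h
      have h4 : q ^ k.natAbs = 1 := by
        rcases Int.natAbs_eq k with h5 | h5
        · rw [h5, zpow_natCast] at h
          exact h
        · rw [h5, zpow_neg, zpow_natCast, inv_eq_one] at h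
          exact h
      exact hcon _ (Int.natAbs_pos.2 hk) h4
    have hq1 : q ≠ 1 := fun h => h3 1 one_ne_zero (by rw [zpow_one, h])
    obtain ⟨i, hi⟩ := h1 q hq1
    have hi' : q ^ i = (x : Z ⧸ W) := hi
    have hi0 : i ≠ 0 := by
      rintro rfl
      exact hx1 (by rw [← hi', zpow_zero])
    obtain ⟨j, hj⟩ := h1 (q ^ (i.natAbs + 1)) (by
      have := h3 ((i.natAbs + 1 : ℕ) : ℤ) (by positivity)
      rwa [zpow_natCast] at this)
    have hj' : (q ^ (i.natAbs + 1)) ^ j = (x : Z ⧸ W) := hj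
    have h4 : q ^ (i - ((i.natAbs + 1 : ℕ) : ℤ) * j) = 1 := by
      rw [zpow_sub, zpow_mul, zpow_natCast, hj', hi', mul_inv_cancel]
    have h5 : i - ((i.natAbs + 1 : ℕ) : ℤ) * j = 0 := by
      by_contra h6
      exact h3 _ h6 h4
    have h6 : ((i.natAbs + 1 : ℕ) : ℤ) ∣ i := ⟨j, by linarith⟩
    have h7 := Int.natAbs_dvd_natAbs.2 h6
    rw [Int.natAbs_natCast] at h7
    have h8 := Nat.le_of_dvd (Int.natAbs_pos.2 hi0) h7
    omega
  have hfin : Finite (Z ⧸ W) := CommGroup.finite_of_fg_isMulTorsion (Z ⧸ W)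
    fun z => isOfFinOrder_iff_pow_eq_one.2 (h2 z)
  refine ⟨Nat.card (Z ⧸ W), Nat.card_pos, fun z hz => hW ?_⟩
  rw [← hz]
  refine (QuotientGroup.eq_one_iff _).1 ?_
  rw [QuotientGroup.mk_pow, pow_card_eq_one']

/-! ### centralizers of finite normal subgroups -/

theorem centralizer_finiteIndex {G : Type} [Group G] {R : Subgroup G} (hn : R.Normal)
    (hR : (R : Set G).Finite) : (Subgroup.centralizer (R : Set G)).FiniteIndex := by
  have : Finite R := hR
  have h1 : (MulAut.conjNormal (H := R)).ker.FiniteIndex := by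
    have : Finite (MulAut R) := inferInstance
    infer_instance
  refine Subgroup.finiteIndex_of_le (H := (MulAut.conjNormal (H := R)).ker) fun g hg => ?_
  rw [Subgroup.mem_centralizer_iff]
  intro r hr
  have h2 := congrArg (fun f : MulAut R => ((f ⟨r, hr⟩ : R) : G)) (MonoidHom.mem_ker.1 hg)
  have h3 : g * r * g⁻¹ = r := by
    simpa using h2
  exact (mul_inv_eq_iff_eq_mul.1 h3).symm

/-- finite-by-(virtually solvable) groups are virtually solvable -/
theorem VSm.of_finite {G : Type} [Group G] {R : Subgroup G} (hn : R.Normal)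
    (hR : (R : Set G).Finite) (h : VSm R) : VSm (⊥ : Subgroup G) := by
  obtain ⟨P, h1, n, h2⟩ := h
  have h3 := centralizer_finiteIndex hn hR
  refine ⟨P ⊓ Subgroup.centralizer (R : Set G), inferInstance, n + 1, ?_⟩
  have h4 : ds (P ⊓ Subgroup.centralizer (R : Set G)) n ≤ R := (ds_mono inf_le_left n).trans h2
  have h5 : ds (P ⊓ Subgroup.centralizer (R : Set G)) n ≤ Subgroup.centralizer (R : Set G) :=
    (ds_le _ n).trans inf_le_right
  refine Subgroup.commutator_le.2 fun a ha b hb => ?_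
  have h6 : a * b = b * a := Subgroup.mem_centralizer_iff.1 (h5 hb) a (h4 ha)
  show a * b * a⁻¹ * b⁻¹ ∈ _
  rw [h6, mul_inv_cancel_right, mul_inv_cancel]
  exact one_mem _

/-- pigeonhole -/
theorem infinite_of_fibres {G α : Type} [Group G] {A D : Subgroup G}
    (hA : ¬ (A : Set G).Finite) (f : G → α) (hf : (f '' A).Finite)
    (h : ∀ a ∈ A, ∀ a' ∈ A, f a = f a' → a'⁻¹ * a ∈ D) : ¬ (D : Set G).Finite := by
  intro hD
  refine hA (Set.Finite.of_finite_fibers f hf ?_)
  rintro _ ⟨a', ha', rfl⟩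
  refine (hD.image (fun d => a' * d)).subset ?_
  rintro a ⟨ha, hfa⟩
  exact ⟨a'⁻¹ * a, h a ha a' ha' hfa, by group⟩

/-- a virtually solvable group of subexponential growth with an element that lies in every
nontrivial normal subgroup is finite -/
theorem core {E : Type} [Group E] (hE : SubG E) (hv : VSm (⊥ : Subgroup E)) {x : E} (hx : x ≠ 1)
    (hmon : ∀ X : Subgroup E, X.Normal → X ≠ ⊥ → x ∈ X) : Finite E := by
  by_contra hinf
  rw [not_finite_iff_infinite] at hinf
  obtain ⟨P, hP, n, hn⟩ := id hv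
  obtain ⟨P₀, hP₀⟩ : ∃ P₀ : Subgroup E, P₀ = P.normalCore := ⟨_, rfl⟩
  have hP1 : P₀.FiniteIndex := by rw [hP₀]; infer_instance
  have hP2 : P₀.Normal := by rw [hP₀]; infer_instance
  have hP3 : ds P₀ n ≤ ⊥ := (ds_mono (by rw [hP₀]; exact Subgroup.normalCore_le P) n).trans hn
  -- the last infinite term
  obtain ⟨j, hj1, hj2⟩ : ∃ j, ¬ ((ds P₀ j : Subgroup E) : Set E).Finite ∧
      ((ds P₀ (j + 1) : Subgroup E) : Set E).Finite := by
    by_contra hcon
    push Not at hcon
    have h1 : ∀ j, ¬ ((ds P₀ j : Subgroup E) : Set E).Finite := by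
      intro j
      induction j with
      | zero =>
        intro h
        have : Finite P₀ := h
        have h2 : Finite (E ⧸ P₀) := Subgroup.finite_quotient_of_finiteIndex
        have h3 : Finite ((E ⧸ P₀) × P₀) := inferInstance
        exact not_finite_iff_infinite.2 hinf
          (Finite.of_equiv ((E ⧸ P₀) × P₀)
            (Subgroup.groupEquivQuotientProdSubgroup (s := P₀)).symm)
      | succ j ih => exact hcon j ih
    exact h1 n ((Set.finite_singleton (1 : E)).subset fun g hg => Subgroup.mem_bot.1 (hP3 hg))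
  obtain ⟨A, hA⟩ : ∃ A, A = ds P₀ j := ⟨_, rfl⟩
  obtain ⟨F, hF⟩ : ∃ F, F = ds P₀ (j + 1) := ⟨_, rfl⟩
  have hAn : A.Normal := by rw [hA]; exact ds_normal hP2 j
  have hFn : F.Normal := by rw [hF]; exact ds_normal hP2 (j + 1)
  have hAF : ⁅A, A⁆ = F := by rw [hA, hF]; rfl
  rw [← hA] at hj1
  rw [← hF] at hj2
  have hFfin : Finite F := hj2
  -- the centralizer of `F` in `A`
  obtain ⟨D, hD⟩ : ∃ D : Subgroup E, D = A ⊓ Subgroup.centralizer (F : Set E) := ⟨_, rfl⟩
  have hDn : D.Normal := by rw [hD]; infer_instance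
  have hDinf : ¬ (D : Set E).Finite := by
    refine infinite_of_fibres hj1 (fun a (r : F) => a * r * a⁻¹) ?_ ?_
    · refine (Set.Finite.pi (t := fun _ : F => (F : Set E)) fun _ => hj2).subset ?_
      rintro _ ⟨a, ha, rfl⟩
      exact fun r _ => hFn.conj_mem r r.2 a
    · intro a ha a' ha' h
      rw [hD]
      refine Subgroup.mem_inf.2 ⟨mul_mem (inv_mem ha') ha,
        Subgroup.mem_centralizer_iff.2 fun r hr => ?_⟩
      have h1 : a * r * a⁻¹ = a' * r * a'⁻¹ := congrFun h ⟨r, hr⟩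
      have h2 : a'⁻¹ * (a * r * a⁻¹) * a = r * (a'⁻¹ * a) := by
        rw [h1]
        group
      rw [← h2]
      group
  have hDF : ∀ d ∈ D, ∀ d' ∈ D, d * d' * d⁻¹ * d'⁻¹ ∈ F := by
    intro d hd d' hd'
    rw [hD] at hd hd'
    rw [← hAF]
    exact Subgroup.commutator_mem_commutator hd.1 hd'.1
  obtain ⟨T, hT, hTfin⟩ := (Subgroup.fg_iff D).1 ((hv.mono bot_le : VSm D).fg hE hDn)
  have hTD : ∀ t ∈ T, t ∈ D := fun t ht => by
    rw [← hT]
    exact Subgroup.subset_closure ht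
  have hTfin' : Finite T := hTfin
  -- the centre of `D`
  obtain ⟨Z, hZ⟩ : ∃ Z : Subgroup E, Z = D ⊓ Subgroup.centralizer (D : Set E) := ⟨_, rfl⟩
  have hZn : Z.Normal := by rw [hZ]; infer_instance
  have hZinf : ¬ (Z : Set E).Finite := by
    refine infinite_of_fibres hDinf (fun d (t : T) => d * t * d⁻¹ * (t : E)⁻¹) ?_ ?_
    · refine (Set.Finite.pi (t := fun _ : T => (F : Set E)) fun _ => hj2).subset ?_
      rintro _ ⟨d, hd, rfl⟩
      exact fun t _ => hDF d hd t (hTD t t.2)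
    · intro d hd d' hd' h
      rw [hZ]
      refine Subgroup.mem_inf.2 ⟨mul_mem (inv_mem hd') hd, ?_⟩
      have h1 : D ≤ Subgroup.centralizer {d'⁻¹ * d} := by
        rw [← hT, Subgroup.closure_le]
        intro t ht
        rw [SetLike.mem_coe, Subgroup.mem_centralizer_iff]
        rintro _ rfl
        have h2 : d * t * d⁻¹ * t⁻¹ = d' * t * d'⁻¹ * t⁻¹ := congrFun h ⟨t, ht⟩
        have h3 : d * t * d⁻¹ = d' * t * d'⁻¹ := mul_right_cancel h2
        have h4 : d'⁻¹ * (d * t * d⁻¹) * d = t * (d'⁻¹ * d) := by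
          rw [h3]
          group
        rw [← h4]
        group
      rw [Subgroup.mem_centralizer_iff]
      intro u hu
      exact (Subgroup.mem_centralizer_iff.1 (h1 hu) _ rfl).symm
  have hZfg : Z.FG := (hv.mono bot_le : VSm Z).fg hE hZn
  have hZcomm : ∀ a b : Z, a * b = b * a := by
    rintro ⟨a, ha⟩ ⟨b, hb⟩
    rw [hZ] at ha hb
    exact Subtype.ext (Subgroup.mem_centralizer_iff.1 hb.2 a ha.1)
  let inst : CommGroup Z := { (inferInstance : Group Z) with mul_comm := hZcomm }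
  have hZfg' : Group.FG Z := (Group.fg_iff_subgroup_fg Z).2 hZfg
  have hxZ : x ∈ Z := by
    refine hmon Z hZn fun h => hZinf ?_
    rw [h]
    exact Set.finite_singleton _
  obtain ⟨m, hm0, hm⟩ := ab_sep (x := (⟨x, hxZ⟩ : Z)) fun h => hx (congrArg Subtype.val h)
  obtain ⟨W, hW⟩ : ∃ W : Subgroup E, W = (powMonoidHom m : Z →* Z).range.map Z.subtype := ⟨_, rfl⟩
  have hWn : W.Normal := by
    refine ⟨fun w hw g => ?_⟩
    rw [hW] at hw ⊢
    obtain ⟨_, ⟨z, rfl⟩, rfl⟩ := hw
    refine ⟨_, ⟨⟨g * z * g⁻¹, hZn.conj_mem z z.2 g⟩, rfl⟩, ?_⟩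
    show (g * z * g⁻¹) ^ m = g * (z : E) ^ m * g⁻¹
    exact conj_pow
  have hxW : x ∈ W := by
    refine hmon W hWn fun h => hZinf ?_
    refine ab_finite hm0 fun z => ?_
    have h1 : ((z ^ m : Z) : E) ∈ W := by
      rw [hW]
      exact ⟨z ^ m, ⟨z, rfl⟩, rfl⟩
    rw [h] at h1
    exact Subtype.ext (Subgroup.mem_bot.1 h1)
  rw [hW] at hxW
  obtain ⟨_, ⟨z, rfl⟩, h⟩ := hxW
  exact hm z (Subtype.ext h)

/-- virtually solvable groups of subexponential growth are residually finite -/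
theorem residuallyFinite {E : Type} [Group E] (hE : SubG E) (hv : VSm (⊥ : Subgroup E)) {x : E}
    (hx : x ≠ 1) : ∃ N : Subgroup E, N.Normal ∧ N.FiniteIndex ∧ x ∉ N := by
  obtain ⟨N, hN, hxN, hmax⟩ := exists_max_notMem hx
  refine ⟨N, hN, ?_, hxN⟩
  have h1 : Finite (E ⧸ N) := by
    refine core (x := (x : E ⧸ N)) (hE.map (QuotientGroup.mk' N) (QuotientGroup.mk'_surjective N))
      ?_ (fun h => hxN ((QuotientGroup.eq_one_iff x).1 h)) fun X hX hX0 => ?_
    · have h2 := hv.map (QuotientGroup.mk' N) (QuotientGroup.mk'_surjective N)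
      rwa [Subgroup.map_bot] at h2
    · by_contra hcon
      have h2 := hmax (X.comap (QuotientGroup.mk' N)) inferInstance hcon (by
        intro w hw
        rw [Subgroup.mem_comap, show QuotientGroup.mk' N w = 1 from
          (QuotientGroup.eq_one_iff w).2 hw]
        exact one_mem _)
      refine hX0 ?_
      have h3 := congrArg (Subgroup.map (QuotientGroup.mk' N)) h2
      rwa [Subgroup.map_comap_eq_self_of_surjective (QuotientGroup.mk'_surjective N),
        (Subgroup.map_eq_bot_iff N).2 (by rw [QuotientGroup.ker_mk'])] at h3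
  exact Subgroup.finiteIndex_of_finite_quotient

end Pool.Agent.H2SlowRed
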