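import Pool.Agent.H2SlowRed.Basic

/-!
# Groups of subexponential growth: kernels of virtually solvable quotients are finitely generated

Milnor's lemma (1968) and Rosset's theorem (1976).
-/

set_option autoImplicit false

namespace Pool.Agent.H2SlowRed

open Pool.Agent.FullLaws Pool.Agent.Tracks

variable {G : Type} [Group G]

/-- the group generated by the conjugates `z ^ i * k * z ^ (-i)`, `0 ≤ i < m` -/
def Bm (z k : G) (m : ℕ) : Subgroup G :=
  Subgroup.closure {x | ∃ i : ℕ, i < m ∧ x = z ^ i * k * (z ^ i)⁻¹}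

theorem Bm_fg (z k : G) (m : ℕ) : (Bm z k m).FG := by
  refine (Subgroup.fg_iff _).2 ⟨_, rfl, ?_⟩
  refine ((Set.finite_Iio m).image (fun i => z ^ i * k * (z ^ i)⁻¹)).subset ?_
  rintro x ⟨i, h1, rfl⟩
  exact ⟨i, h1, rfl⟩

theorem exists_Bm {S : Finset G} (hS : Subgroup.closure (S : Set G) = ⊤) (hsub : Subexp S)
    (z k : G) : ∃ m : ℕ, ∀ i : ℕ, (z ^ i)⁻¹ * k * z ^ i ∈ Bm z k m := by
  obtain ⟨m, hm⟩ := exists_mem_Qm hS hsub z k
  have h1 : ∀ q ∈ Qm z k m, z⁻¹ * q * z ∈ Bm z k m := by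
    have h2 : Qm z k m ≤ (Bm z k m).comap (MulAut.conj z⁻¹).toMonoidHom := by
      rw [Qm, Subgroup.closure_le]
      rintro x ⟨i, h2, h3, rfl⟩
      obtain ⟨j, rfl⟩ := Nat.exists_eq_add_of_le' h2
      refine Subgroup.subset_closure ⟨j, by omega, ?_⟩
      show z⁻¹ * (z ^ (j + 1) * k * (z ^ (j + 1))⁻¹) * z⁻¹⁻¹ = _
      rw [pow_succ']
      group
    intro q hq
    have h3 : z⁻¹ * q * z⁻¹⁻¹ ∈ Bm z k m := h2 hq
    rwa [inv_inv] at h3
  have hk : k ∈ Bm z k m := by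
    rcases Nat.eq_zero_or_pos m with rfl | h0
    · have h2 : Qm z k 0 ≤ Bm z k 0 := by
        rw [Qm, Subgroup.closure_le]
        rintro x ⟨i, h2, h3, -⟩
        omega
      exact h2 hm
    · exact Subgroup.subset_closure ⟨0, h0, by simp⟩
  have h2 : ∀ q ∈ Bm z k m, z⁻¹ * q * z ∈ Bm z k m := by
    have h3 : Bm z k m ≤ (Bm z k m).comap (MulAut.conj z⁻¹).toMonoidHom := by
      conv_lhs => rw [Bm]
      rw [Subgroup.closure_le]
      rintro x ⟨i, h2, rfl⟩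
      show z⁻¹ * (z ^ i * k * (z ^ i)⁻¹) * z⁻¹⁻¹ ∈ Bm z k m
      rw [inv_inv]
      rcases Nat.eq_zero_or_pos i with rfl | hi
      · simpa using h1 k hm
      · obtain ⟨j, rfl⟩ := Nat.exists_eq_add_of_le' hi
        refine Subgroup.subset_closure ⟨j, by omega, ?_⟩
        rw [pow_succ']
        group
    intro q hq
    have h4 : z⁻¹ * q * z⁻¹⁻¹ ∈ Bm z k m := h3 hq
    rwa [inv_inv] at h4
  refine ⟨m, fun i => ?_⟩
  induction i with
  | zero => simpa using hk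
  | succ i ih =>
    have h3 := h2 _ ih
    have h4 : (z ^ (i + 1))⁻¹ * k * z ^ (i + 1) = z⁻¹ * ((z ^ i)⁻¹ * k * z ^ i) * z := by
      rw [pow_succ]
      group
    rwa [h4]

/-- the group generated by all conjugates `z ^ i * k * z ^ (-i)` -/
def Ball (z k : G) : Subgroup G := Subgroup.closure {x | ∃ i : ℤ, x = z ^ i * k * (z ^ i)⁻¹}

theorem Bm_le_Ball (z k : G) (m : ℕ) : Bm z k m ≤ Ball z k := by
  refine Subgroup.closure_mono ?_
  rintro x ⟨i, -, rfl⟩
  exact ⟨i, by rw [zpow_natCast]⟩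

theorem Bm_inv_le_Ball (z k : G) (m : ℕ) : Bm z⁻¹ k m ≤ Ball z k := by
  refine Subgroup.closure_mono ?_
  rintro x ⟨i, -, rfl⟩
  exact ⟨-i, by rw [zpow_neg, zpow_natCast, inv_pow]⟩

theorem Ball_fg {S : Finset G} (hS : Subgroup.closure (S : Set G) = ⊤) (hsub : Subexp S)
    (z k : G) : (Ball z k).FG := by
  obtain ⟨m, h1⟩ := exists_Bm hS hsub z k
  obtain ⟨m', h2⟩ := exists_Bm hS hsub z⁻¹ k
  have h3 : Ball z k = Bm z k m ⊔ Bm z⁻¹ k m' := by
    refine le_antisymm ?_ (sup_le (Bm_le_Ball z k m) (Bm_inv_le_Ball z k m'))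
    rw [Ball, Subgroup.closure_le]
    rintro x ⟨i, rfl⟩
    obtain ⟨n, rfl | rfl⟩ := i.eq_nat_or_neg
    · refine (le_sup_right : Bm z⁻¹ k m' ≤ _) ?_
      have h4 := h2 n
      rw [zpow_natCast]
      rwa [inv_pow, inv_inv] at h4
    · refine (le_sup_left : Bm z k m ≤ _) ?_
      have h4 := h1 n
      rwa [zpow_neg, zpow_natCast, inv_inv]
  rw [h3]
  exact (Bm_fg _ _ _).sup (Bm_fg _ _ _)

theorem Ball_conj {z k q : G} (hq : q ∈ Ball z k) : z * q * z⁻¹ ∈ Ball z k := by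
  have h3 : Ball z k ≤ (Ball z k).comap (MulAut.conj z).toMonoidHom := by
    conv_lhs => rw [Ball]
    rw [Subgroup.closure_le]
    rintro x ⟨i, rfl⟩
    refine Subgroup.subset_closure ⟨i + 1, ?_⟩
    show z * (z ^ i * k * (z ^ i)⁻¹) * z⁻¹ = _
    rw [add_comm, zpow_add, zpow_one]
    group
  exact h3 hq

theorem Ball_conj' {z k q : G} (hq : q ∈ Ball z k) : z⁻¹ * q * z ∈ Ball z k := by
  have h3 : Ball z k ≤ (Ball z k).comap (MulAut.conj z⁻¹).toMonoidHom := by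
    conv_lhs => rw [Ball]
    rw [Subgroup.closure_le]
    rintro x ⟨i, rfl⟩
    refine Subgroup.subset_closure ⟨-1 + i, ?_⟩
    show z⁻¹ * (z ^ i * k * (z ^ i)⁻¹) * z⁻¹⁻¹ = _
    rw [zpow_add, zpow_neg, zpow_one]
    group
  have h4 : z⁻¹ * q * z⁻¹⁻¹ ∈ Ball z k := h3 hq
  rwa [inv_inv] at h4

/-- the elements of the product of `K` and the powers of `z` -/
theorem mem_sup_zpowers {K P : Subgroup G} {z : G} (hP : P = K ⊔ Subgroup.zpowers z)
    (hn : ∀ p ∈ P, ∀ k ∈ K, p * k * p⁻¹ ∈ K) {p : G} (hp : p ∈ P) :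
    ∃ i : ℤ, p * (z ^ i)⁻¹ ∈ K := by
  have hz : z ∈ P := by
    rw [hP]
    exact (le_sup_right : Subgroup.zpowers z ≤ _) (Subgroup.mem_zpowers z)
  have hK : K ≤ P := by
    rw [hP]
    exact le_sup_left
  let W : Subgroup G :=
    { carrier := {p | p ∈ P ∧ ∃ i : ℤ, p * (z ^ i)⁻¹ ∈ K}
      mul_mem' := by
        rintro a b ⟨ha, i, hi⟩ ⟨hb, j, hj⟩
        refine ⟨mul_mem ha hb, i + j, ?_⟩
        have h1 : a * b * (z ^ (i + j))⁻¹ = (a * (b * (z ^ j)⁻¹) * a⁻¹) * (a * (z ^ i)⁻¹) := by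
          rw [add_comm, zpow_add]
          group
        rw [h1]
        exact mul_mem (hn a ha _ hj) hi
      one_mem' := ⟨one_mem _, 0, by simp⟩
      inv_mem' := by
        rintro a ⟨ha, i, hi⟩
        refine ⟨inv_mem ha, -i, ?_⟩
        have h1 : a⁻¹ * (z ^ (-i))⁻¹ = a⁻¹ * (a * (z ^ i)⁻¹)⁻¹ * a⁻¹⁻¹ := by
          group
        rw [h1]
        exact hn _ (inv_mem ha) _ (inv_mem hi) }
  have h1 : P ≤ W := by
    rw [hP]
    refine sup_le (fun k hk => ⟨hK hk, 0, by simpa using hk⟩) ?_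
    rw [Subgroup.zpowers_le]
    exact ⟨hz, 1, by simp⟩
  exact (h1 hp).2

theorem fg_inf_zpowers (K : Subgroup G) (z : G) : (K ⊓ Subgroup.zpowers z).FG := by
  have h1 : IsCyclic (K.subgroupOf (Subgroup.zpowers z)) := Subgroup.isCyclic _
  obtain ⟨g, hg⟩ := h1.exists_generator
  refine (Subgroup.fg_iff _).2 ⟨{((g : Subgroup.zpowers z) : G)}, ?_, Set.finite_singleton _⟩
  rw [← Subgroup.zpowers_eq_closure]
  refine le_antisymm ?_ fun x hx => ?_
  · rw [Subgroup.zpowers_le]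
    exact ⟨g.2, g.1.2⟩
  · obtain ⟨i, hi⟩ := hg ⟨⟨x, hx.2⟩, hx.1⟩
    exact ⟨i, congrArg (fun y : K.subgroupOf (Subgroup.zpowers z) =>
      ((y : Subgroup.zpowers z) : G)) hi⟩

/-- cyclic quotients -/
theorem fg_of_cyclic {S : Finset G} (hS : Subgroup.closure (S : Set G) = ⊤) (hsub : Subexp S)
    {K P : Subgroup G} {z : G} (hfg : P.FG) (hP : P = K ⊔ Subgroup.zpowers z)
    (hn : ∀ p ∈ P, ∀ k ∈ K, p * k * p⁻¹ ∈ K) : K.FG := by
  have hz : z ∈ P := by
    rw [hP]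
    exact (le_sup_right : Subgroup.zpowers z ≤ _) (Subgroup.mem_zpowers z)
  have hK : K ≤ P := by
    rw [hP]
    exact le_sup_left
  obtain ⟨T, hT, hfin⟩ := (Subgroup.fg_iff P).1 hfg
  have h1 : ∀ t : G, ∃ i : ℤ, t ∈ P → t * (z ^ i)⁻¹ ∈ K := by
    intro t
    by_cases ht : t ∈ P
    · obtain ⟨i, hi⟩ := mem_sup_zpowers hP hn ht
      exact ⟨i, fun _ => hi⟩
    · exact ⟨0, fun h => absurd h ht⟩
  choose f hf using h1
  obtain ⟨K₁, hK₁⟩ : ∃ K₁ : Subgroup G, K₁ = ⨆ t ∈ T, Ball z (t * (z ^ f t)⁻¹) := ⟨_, rfl⟩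
  have hTP : ∀ t ∈ T, t ∈ P := fun t ht => by
    rw [← hT]
    exact Subgroup.subset_closure ht
  have hfg1 : K₁.FG := by
    rw [hK₁]
    exact Subgroup.FG.biSup hfin _ fun t _ => Ball_fg hS hsub _ _
  have hle : K₁ ≤ K := by
    rw [hK₁]
    refine iSup₂_le fun t ht => ?_
    rw [Ball, Subgroup.closure_le]
    rintro x ⟨i, rfl⟩
    exact hn _ (zpow_mem hz i) _ (hf t (hTP t ht))
  have hconj : ∀ q ∈ K₁, z * q * z⁻¹ ∈ K₁ := by
    have h2 : K₁ ≤ K₁.comap (MulAut.conj z).toMonoidHom := by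
      conv_lhs => rw [hK₁]
      refine iSup₂_le fun t ht q hq => ?_
      rw [hK₁]
      exact (le_iSup₂_of_le t ht le_rfl : Ball z (t * (z ^ f t)⁻¹) ≤ _) (Ball_conj hq)
    exact fun q hq => h2 hq
  have hconj' : ∀ q ∈ K₁, z⁻¹ * q * z ∈ K₁ := by
    have h2 : K₁ ≤ K₁.comap (MulAut.conj z⁻¹).toMonoidHom := by
      conv_lhs => rw [hK₁]
      refine iSup₂_le fun t ht q hq => ?_
      rw [hK₁]
      have h3 := Ball_conj' hq
      refine (le_iSup₂_of_le t ht le_rfl : Ball z (t * (z ^ f t)⁻¹) ≤ _) ?_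
      show z⁻¹ * q * z⁻¹⁻¹ ∈ _
      rwa [inv_inv]
    intro q hq
    have h4 : z⁻¹ * q * z⁻¹⁻¹ ∈ K₁ := h2 hq
    rwa [inv_inv] at h4
  have hP1 : P = K₁ ⊔ Subgroup.zpowers z := by
    refine le_antisymm ?_ (sup_le (hle.trans hK) ?_)
    · rw [← hT, Subgroup.closure_le]
      intro t ht
      have h2 : t * (z ^ f t)⁻¹ ∈ K₁ := by
        rw [hK₁]
        refine (le_iSup₂_of_le t ht le_rfl : Ball z (t * (z ^ f t)⁻¹) ≤ _) ?_
        exact Subgroup.subset_closure ⟨0, by simp⟩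
      have h3 : t = (t * (z ^ f t)⁻¹) * z ^ f t := by group
      rw [SetLike.mem_coe, h3]
      exact mul_mem ((le_sup_left : K₁ ≤ _) h2) ((le_sup_right : Subgroup.zpowers z ≤ _)
        (zpow_mem (Subgroup.mem_zpowers z) _))
    · rwa [Subgroup.zpowers_le]
  have hn1 : ∀ p ∈ P, ∀ k ∈ K₁, p * k * p⁻¹ ∈ K₁ := by
    have h2 : P ≤ Subgroup.normalizer (K₁ : Set G) := by
      rw [hP1]
      refine sup_le Subgroup.le_normalizer ?_
      rw [Subgroup.zpowers_le, Subgroup.mem_normalizer_iff]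
      intro h
      refine ⟨hconj h, fun h3 => ?_⟩
      have h4 := hconj' _ h3
      have h5 : z⁻¹ * (z * h * z⁻¹) * z = h := by group
      rwa [h5] at h4
    intro p hp k hk
    exact (Subgroup.mem_normalizer_iff.1 (h2 hp) k).1 hk
  have hfinal : K = K₁ ⊔ (K ⊓ Subgroup.zpowers z) := by
    refine le_antisymm ?_ (sup_le hle inf_le_left)
    intro k hk
    obtain ⟨i, hi⟩ := mem_sup_zpowers hP1 hn1 (hK hk)
    have h2 : z ^ i ∈ K := by
      have h3 : z ^ i = (k * (z ^ i)⁻¹)⁻¹ * k := by group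
      rw [h3]
      exact mul_mem (inv_mem (hle hi)) hk
    have h3 : k = (k * (z ^ i)⁻¹) * z ^ i := by group
    rw [h3]
    exact mul_mem ((le_sup_left : K₁ ≤ _) hi) ((le_sup_right : K ⊓ Subgroup.zpowers z ≤ _)
      ⟨h2, zpow_mem (Subgroup.mem_zpowers z) _⟩)
  rw [hfinal]
  exact hfg1.sup (fg_inf_zpowers K z)

/-- abelian quotients -/
theorem fg_of_abelian {S : Finset G} (hS : Subgroup.closure (S : Set G) = ⊤) (hsub : Subexp S)
    {K P : Subgroup G} (hfg : P.FG) (h1 : ⁅P, P⁆ ≤ K) (h2 : K ≤ P) : K.FG := by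
  classical
  have key : ∀ T : Finset G, (T : Set G) ⊆ P → (K ⊔ Subgroup.closure (T : Set G)).FG → K.FG := by
    intro T
    induction T using Finset.induction_on with
    | empty => intro _ h; simpa using h
    | insert t T ht ih =>
      intro hT h
      have hT' : (T : Set G) ⊆ P := fun x hx => hT (by simp [Finset.mem_coe.1 hx])
      refine ih hT' ?_
      refine fg_of_cyclic hS hsub (z := t) h ?_ ?_
      · rw [Finset.coe_insert, Set.insert_eq, Subgroup.closure_union,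
          ← Subgroup.zpowers_eq_closure, sup_assoc, sup_comm (Subgroup.zpowers t)]
      · intro p hp k hk
        have h3 : K ⊔ Subgroup.closure ((insert t T : Finset G) : Set G) ≤ P :=
          sup_le h2 ((Subgroup.closure_le P).2 hT)
        have h4 : K ⊔ Subgroup.closure (T : Set G) ≤ P :=
          sup_le h2 ((Subgroup.closure_le P).2 hT')
        have h5 : p * k * p⁻¹ = (p * k * p⁻¹ * k⁻¹) * k := by
          group
        rw [h5]
        exact mul_mem ((le_sup_left : K ≤ _) (Subgroup.commutator_le.1 h1 p (h3 hp) k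
          (h4 hk))) hk
  obtain ⟨T, hT, hfin⟩ := (Subgroup.fg_iff P).1 hfg
  obtain ⟨T, rfl⟩ := hfin.exists_finset_coe
  refine key T ?_ ?_
  · rw [← hT]
    exact Subgroup.subset_closure
  · rwa [hT, sup_eq_right.2 h2]

/-- solvable quotients -/
theorem fg_of_solvable {S : Finset G} (hS : Subgroup.closure (S : Set G) = ⊤) (hsub : Subexp S)
    {N P : Subgroup G} (hN : N.Normal) (hfg : P.FG) (hNP : N ≤ P) {n : ℕ} (h : ds P n ≤ N) :
    N.FG := by
  have key : ∀ j, (N ⊔ ds P j).FG := by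
    intro j
    induction j with
    | zero =>
      show (N ⊔ P).FG
      rwa [sup_eq_right.2 hNP]
    | succ j ih =>
      exact fg_of_abelian hS hsub ih (comm_sup hN _ _) (sup_le_sup_left (ds_succ_le P j) N)
  have h1 := key n
  rwa [sup_eq_left.2 h] at h1

/-- kernels of virtually solvable quotients -/
theorem VSm.fg (hG : SubG G) {N : Subgroup G} (hN : N.Normal) (h : VSm N) : N.FG := by
  have hGfg := hG.fg
  obtain ⟨S, hS, hsub⟩ := hG
  obtain ⟨P, h1, n, h2⟩ := h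
  have h3 : (N ⊔ P).FiniteIndex := Subgroup.finiteIndex_of_le (le_sup_right : P ≤ N ⊔ P)
  have h4 : (N ⊔ P).FG := (Group.fg_iff_subgroup_fg _).1 (Subgroup.fg_of_index_ne_zero _)
  exact fg_of_solvable hS hsub hN h4 le_sup_left ((ds_sup hN P n).trans (sup_le le_rfl h2))

end Pool.Agent.H2SlowRed
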