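import Pool.Agent.H2SlowRed.Two
import Mathlib.GroupTheory.Nilpotent

/-!
# Groups of subexponential growth which are not virtually nilpotent: sections
-/

set_option autoImplicit false

namespace Pool.Agent.H2SlowRed

open Pool.Agent.FullLaws Pool.Agent.Tracks

/-! ### the lower central series -/

theorem lc_top (G : Type) [Group G] (n : ℕ) :
    lc (⊤ : Subgroup G) n = (⊤ : Subgroup G).lowerCentralSeries n := by
  induction n with
  | zero => rfl
  | succ n ih =>
    show ⁅lc (⊤ : Subgroup G) n, (⊤ : Subgroup G)⁆ = _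
    rw [ih]
    rfl

theorem vnm_iff (G : Type) [Group G] : VNm (⊥ : Subgroup G) ↔
    ∃ P : Subgroup G, P.FiniteIndex ∧ Group.IsNilpotent P := by
  have key : ∀ (P : Subgroup G) (n : ℕ), lc P n ≤ ⊥ ↔ lc (⊤ : Subgroup P) n = ⊥ := by
    intro P n
    have h1 : (lc (⊤ : Subgroup P) n).map P.subtype = lc P n := by
      rw [lc_map, ← MonoidHom.range_eq_map, Subgroup.range_subtype]
    rw [← h1, le_bot_iff, Subgroup.map_eq_bot_iff_of_injective _ (Subgroup.subtype_injective P)]
  constructor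
  · rintro ⟨P, h1, n, h2⟩
    refine ⟨P, h1, Subgroup.nilpotent_iff_lowerCentralSeries.2 ⟨n, ?_⟩⟩
    rw [← lc_top]
    exact (key P n).1 h2
  · rintro ⟨P, h1, h2⟩
    obtain ⟨n, hn⟩ := Subgroup.nilpotent_iff_lowerCentralSeries.1 h2
    rw [← lc_top] at hn
    exact ⟨P, h1, n, (key P n).2 hn⟩

theorem vn_quot {G : Type} [Group G] {N : Subgroup G} [N.Normal] (h : VNm N) :
    VNm (⊥ : Subgroup (G ⧸ N)) := by
  have h2 := h.map _ (QuotientGroup.mk'_surjective N)
  rwa [(Subgroup.map_eq_bot_iff N).2 (by rw [QuotientGroup.ker_mk'])] at h2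

/-- the dichotomy -/
theorem main {G : Type} [Group G] (hG : SubG G) (hn : ¬ VNm (⊥ : Subgroup G)) :
    (∃ (H : Type) (_ : Group H) (φ : G →* H), Function.Surjective φ ∧ JN H ∧ Res H = ⊥) ∨
    (∃ L : Subgroup G, L.Normal ∧ L.FG ∧ VNm L ∧ ∃ (H : Type) (_ : Group H) (φ : L →* H),
      Function.Surjective φ ∧ SubG H ∧ ¬ VNm (⊥ : Subgroup H) ∧ IsSimpleGroup H) := by
  obtain ⟨N, hN, hJN, hcom⟩ := exists_JN hG hn
  by_cases h0 : Res (G ⧸ N) = ⊥
  · exact Or.inl ⟨G ⧸ N, inferInstance, QuotientGroup.mk' N, QuotientGroup.mk'_surjective N,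
      hJN, h0⟩
  · refine Or.inr ?_
    have hR : (Res (G ⧸ N)).Normal := Res_normal
    obtain ⟨M, hM, h1, h2, h3⟩ := hJN.dichotomy h0
    have h4 := hcom _ hR h0
    refine ⟨(Res (G ⧸ N)).comap (QuotientGroup.mk' N), inferInstance, h4.vs.fg hG inferInstance,
      h4, Res (G ⧸ N) ⧸ M, inferInstance,
      (QuotientGroup.mk' M).comp ((QuotientGroup.mk' N).subgroupComap (Res (G ⧸ N))), ?_, h2, h3,
      h1⟩
    exact (QuotientGroup.mk'_surjective M).comp
      (MonoidHom.subgroupComap_surjective_of_surjective _ _ (QuotientGroup.mk'_surjective N))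

theorem law_of_surj {G H : Type} [Group G] [Group H] {φ : G →* H} (hφ : Function.Surjective φ)
    {w : FreeGroup ℕ} (h : ∀ f : ℕ → G, FreeGroup.lift f w = 1) (f : ℕ → H) :
    FreeGroup.lift f w = 1 := by
  choose g hg using hφ
  have h1 : (FreeGroup.lift f : FreeGroup ℕ →* H) = φ.comp (FreeGroup.lift fun i => g (f i)) := by
    refine FreeGroup.ext_hom _ _ fun i => ?_
    simp [hg]
  rw [h1, MonoidHom.comp_apply, h, map_one]

theorem law_sub {G : Type} [Group G] {w : FreeGroup ℕ}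
    (h : ∀ f : ℕ → G, FreeGroup.lift f w = 1) (L : Subgroup G) (f : ℕ → L) :
    FreeGroup.lift f w = 1 := by
  refine Subtype.ext ?_
  have h1 : L.subtype.comp (FreeGroup.lift f : FreeGroup ℕ →* L) =
      FreeGroup.lift fun i => (f i : G) := by
    refine FreeGroup.ext_hom _ _ fun i => ?_
    simp
  have h2 := DFunLike.congr_fun h1 w
  rw [h] at h2
  exact h2

end Pool.Agent.H2SlowRed
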