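import Pool.Agent.H2SlowRed.Core

/-!
# Groups of subexponential growth which are not virtually solvable: simple or residually finite
-/

set_option autoImplicit false

namespace Pool.Agent.H2SlowRed

open Pool.Agent.FullLaws Pool.Agent.Tracks

/-! ### the lower central series of a subgroup -/

section LC

variable {G H : Type} [Group G] [Group H]

/-- the lower central series of the subgroup `P` -/
def lc (P : Subgroup G) : ℕ → Subgroup G
  | 0 => P
  | n + 1 => ⁅lc P n, P⁆

theorem lc_mono {P Q : Subgroup G} (h : P ≤ Q) (n : ℕ) : lc P n ≤ lc Q n := by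
  induction n with
  | zero => exact h
  | succ n ih => exact Subgroup.commutator_mono ih h

theorem lc_map (φ : G →* H) (P : Subgroup G) (n : ℕ) : (lc P n).map φ = lc (P.map φ) n := by
  induction n with
  | zero => rfl
  | succ n ih =>
    show (⁅lc P n, P⁆ : Subgroup G).map φ = ⁅lc (P.map φ) n, P.map φ⁆
    rw [Subgroup.map_commutator, ih]

theorem lc_succ_le (P : Subgroup G) (n : ℕ) : lc P (n + 1) ≤ lc P n := by
  induction n with
  | zero => exact comm_self_le P
  | succ n ih => exact Subgroup.commutator_mono ih le_rfl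

theorem lc_anti (P : Subgroup G) {m n : ℕ} (h : m ≤ n) : lc P n ≤ lc P m := by
  induction n, h using Nat.le_induction with
  | base => exact le_rfl
  | succ n _ ih => exact (lc_succ_le P n).trans ih

theorem lc_le (P : Subgroup G) (n : ℕ) : lc P n ≤ P := lc_anti P (Nat.zero_le n)

theorem ds_le_lc (P : Subgroup G) (n : ℕ) : ds P n ≤ lc P n := by
  induction n with
  | zero => exact le_rfl
  | succ n ih => exact Subgroup.commutator_mono ih (ds_le P n)

/-- `G` is virtually nilpotent modulo `K` -/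
def VNm (K : Subgroup G) : Prop := ∃ P : Subgroup G, P.FiniteIndex ∧ ∃ n, lc P n ≤ K

theorem VNm.vs {K : Subgroup G} (h : VNm K) : VSm K := by
  obtain ⟨P, h1, n, h2⟩ := h
  exact ⟨P, h1, n, (ds_le_lc P n).trans h2⟩

theorem VNm.mono {K K' : Subgroup G} (h : VNm K) (hK : K ≤ K') : VNm K' := by
  obtain ⟨P, h1, n, h2⟩ := h
  exact ⟨P, h1, n, h2.trans hK⟩

theorem VNm.map {K : Subgroup G} (h : VNm K) (φ : G →* H) (hφ : Function.Surjective φ) :
    VNm (K.map φ) := by
  obtain ⟨P, h1, n, h2⟩ := h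
  refine ⟨P.map φ, ?_, n, ?_⟩
  · exact ⟨fun h3 => h1.index_ne_zero (Nat.eq_zero_of_zero_dvd
      (h3 ▸ Subgroup.index_map_dvd P hφ))⟩
  · rw [← lc_map]
    exact Subgroup.map_mono h2

theorem VNm.inf {X Y : Subgroup G} (hX : VNm X) (hY : VNm Y) : VNm (X ⊓ Y) := by
  obtain ⟨P, hP, n, hn⟩ := hX
  obtain ⟨P', hP', n', hn'⟩ := hY
  exact ⟨P ⊓ P', inferInstance, max n n', le_inf
    ((lc_anti _ (le_max_left n n')).trans ((lc_mono inf_le_left n).trans hn))
    ((lc_anti _ (le_max_right n n')).trans ((lc_mono inf_le_right n').trans hn'))⟩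

/-- finite-by-(virtually nilpotent) groups are virtually nilpotent -/
theorem VNm.of_finite {R : Subgroup G} (hn : R.Normal) (hR : (R : Set G).Finite) (h : VNm R) :
    VNm (⊥ : Subgroup G) := by
  obtain ⟨P, h1, n, h2⟩ := h
  have h3 := centralizer_finiteIndex hn hR
  refine ⟨P ⊓ Subgroup.centralizer (R : Set G), inferInstance, n + 1, ?_⟩
  have h4 : lc (P ⊓ Subgroup.centralizer (R : Set G)) n ≤ R := (lc_mono inf_le_left n).trans h2
  refine Subgroup.commutator_le.2 fun a ha b hb => ?_
  have h6 : a * b = b * a :=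
    Subgroup.mem_centralizer_iff.1 (Subgroup.mem_inf.1 hb).2 a (h4 ha)
  show a * b * a⁻¹ * b⁻¹ ∈ _
  rw [h6, mul_inv_cancel_right, mul_inv_cancel]
  exact one_mem _

end LC

theorem chain_fg {G : Type} [Group G] {c : Set (Subgroup G)} (hne : c.Nonempty)
    (hch : IsChain (· ≤ ·) c) (h : (sSup c).FG) : sSup c ∈ c := by
  classical
  have key : ∀ T : Finset G, (∀ t ∈ T, t ∈ sSup c) → ∃ N ∈ c, ∀ t ∈ T, t ∈ N := by
    intro T
    induction T using Finset.induction_on with
    | empty =>
      intro _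
      obtain ⟨N, hN⟩ := hne
      exact ⟨N, hN, by simp⟩
    | insert t T ht ih =>
      intro h
      obtain ⟨N, h1, h2⟩ := ih fun s hs => h s (Finset.mem_insert_of_mem hs)
      obtain ⟨M, h3, h4⟩ := (Subgroup.mem_sSup_of_directedOn hne hch.directedOn).1
        (h t (Finset.mem_insert_self t T))
      rcases hch.total h1 h3 with h5 | h5
      · refine ⟨M, h3, fun s hs => ?_⟩
        rcases Finset.mem_insert.1 hs with rfl | hs
        · exact h4
        · exact h5 (h2 s hs)
      · refine ⟨N, h1, fun s hs => ?_⟩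
        rcases Finset.mem_insert.1 hs with rfl | hs
        · exact h5 h4
        · exact h2 s hs
  obtain ⟨T, hT, hfin⟩ := (Subgroup.fg_iff _).1 h
  obtain ⟨T, rfl⟩ := hfin.exists_finset_coe
  obtain ⟨N, h1, h2⟩ := key T fun t ht => by
    rw [← hT]
    exact Subgroup.subset_closure ht
  have h3 : sSup c ≤ N := by
    rw [← hT, Subgroup.closure_le]
    exact h2
  rwa [le_antisymm h3 (le_sSup h1)]

theorem finiteIndex_comap {G H : Type} [Group G] [Group H] {φ : G →* H}
    (hφ : Function.Surjective φ) {P : Subgroup H} (hP : P.FiniteIndex) :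
    (P.comap φ).FiniteIndex :=
  ⟨by
    rw [Subgroup.index_comap_of_surjective _ hφ]
    exact hP.index_ne_zero⟩

/-- not virtually nilpotent, but every proper quotient is -/
structure JN (Q : Type) [Group Q] : Prop where
  sub : SubG Q
  not_vn : ¬ VNm (⊥ : Subgroup Q)
  vn : ∀ X : Subgroup Q, X.Normal → X ≠ ⊥ → VNm X

theorem exists_JN {G : Type} [Group G] (hG : SubG G) (h : ¬ VNm (⊥ : Subgroup G)) :
    ∃ N : Subgroup G, ∃ _ : N.Normal, JN (G ⧸ N) ∧
      ∀ X : Subgroup (G ⧸ N), X.Normal → X ≠ ⊥ → VNm (X.comap (QuotientGroup.mk' N)) := by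
  obtain ⟨N, hN, h1, hmax⟩ := exists_max (fun N : Subgroup G => ¬ VNm N) h
    fun c hne hch hc hn hv => (hc _ (chain_fg hne hch (hv.vs.fg hG hn))).2 hv
  have hsur := QuotientGroup.mk'_surjective N
  have key : ∀ X : Subgroup (G ⧸ N), X.Normal → X ≠ ⊥ → VNm (X.comap (QuotientGroup.mk' N)) := by
    intro X hX hX0
    by_contra hcon
    have h2 := hmax (X.comap (QuotientGroup.mk' N)) inferInstance hcon (by
      intro w hw
      rw [Subgroup.mem_comap, show QuotientGroup.mk' N w = 1 from
        (QuotientGroup.eq_one_iff w).2 hw]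
      exact one_mem _)
    refine hX0 ?_
    have h3 := congrArg (Subgroup.map (QuotientGroup.mk' N)) h2
    rwa [Subgroup.map_comap_eq_self_of_surjective hsur,
      (Subgroup.map_eq_bot_iff N).2 (by rw [QuotientGroup.ker_mk'])] at h3
  refine ⟨N, hN, ⟨hG.map _ hsur, fun h2 => h1 ?_, fun X hX hX0 => ?_⟩, key⟩
  · obtain ⟨P, hP, n, hn⟩ := h2
    refine ⟨P.comap (QuotientGroup.mk' N), finiteIndex_comap hsur hP, n, ?_⟩
    have h3 : (lc (P.comap (QuotientGroup.mk' N)) n).map (QuotientGroup.mk' N) ≤ ⊥ := by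
      rw [lc_map, Subgroup.map_comap_eq_self_of_surjective hsur]
      exact hn
    rw [Subgroup.map_le_iff_le_comap, MonoidHom.comap_bot, QuotientGroup.ker_mk'] at h3
    exact h3
  · have h2 := (key X hX hX0).map _ hsur
    rwa [Subgroup.map_comap_eq_self_of_surjective hsur] at h2

variable {Q : Type} [Group Q]

theorem JN.fg (h : JN Q) {X : Subgroup Q} (hX : X.Normal) : X.FG := by
  by_cases h0 : X = ⊥
  · rw [h0]
    exact Subgroup.FG.bot
  · exact (h.vn X hX h0).vs.fg h.sub hX

theorem JN.inf (h : JN Q) {X Y : Subgroup Q} (hX : X.Normal) (hX0 : X ≠ ⊥) (hY : Y.Normal)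
    (hY0 : Y ≠ ⊥) : X ⊓ Y ≠ ⊥ := by
  intro h0
  have h1 := (h.vn X hX hX0).inf (h.vn Y hY hY0)
  rw [h0] at h1
  exact h.not_vn h1

/-- the finite residual -/
def Res (Q : Type) [Group Q] : Subgroup Q := sInf {K | K.Normal ∧ K.FiniteIndex}

theorem Res_normal : (Res Q).Normal := by
  refine ⟨fun x hx g => ?_⟩
  rw [Res, Subgroup.mem_sInf] at hx ⊢
  exact fun K hK => hK.1.conj_mem x (hx K hK) g

/-- the finite residual lies in every nontrivial normal subgroup -/
theorem JN.res_le (h : JN Q) {V : Subgroup Q} (hV : V.Normal) (h0 : V ≠ ⊥) : Res Q ≤ V := by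
  intro x hx
  by_contra hxV
  have hsur := QuotientGroup.mk'_surjective V
  have hv : VSm (⊥ : Subgroup (Q ⧸ V)) := by
    have h2 := (h.vn V hV h0).vs.map _ hsur
    rwa [(Subgroup.map_eq_bot_iff V).2 (by rw [QuotientGroup.ker_mk'])] at h2
  obtain ⟨N, hN, hN', hxN⟩ := residuallyFinite (h.sub.map _ hsur) hv (x := (x : Q ⧸ V))
    fun h2 => hxV ((QuotientGroup.eq_one_iff x).1 h2)
  exact hxN ((Subgroup.mem_sInf.1 hx) (N.comap (QuotientGroup.mk' V))
    ⟨inferInstance, finiteIndex_comap hsur hN'⟩)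

theorem JN.res_min (h : JN Q) {V : Subgroup Q} (hV : V.Normal) (hle : V ≤ Res Q)
    (hi : V.relIndex (Res Q) ≠ 0) : V = Res Q := by
  by_cases h0 : V = ⊥
  · by_cases h1 : Res Q = ⊥
    · rw [h0, h1]
    have hfin : ((Res Q : Subgroup Q) : Set Q).Finite := by
      rw [h0, Subgroup.relIndex_bot_left] at hi
      exact Set.finite_coe_iff.1 (Nat.finite_of_card_ne_zero hi)
    exact absurd (VNm.of_finite Res_normal hfin (h.vn _ Res_normal h1)) h.not_vn
  · exact le_antisymm hle (h.res_le hV h0)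

/-- the finite residual has no proper subgroup of finite index -/
theorem JN.res_perfect (h : JN Q) (U : Subgroup (Res Q)) (hU : U.FiniteIndex) : U = ⊤ := by
  have hn : (Res Q).Normal := Res_normal
  obtain ⟨S, hS, hfin⟩ := Group.fg_iff.1 ((Group.fg_iff_subgroup_fg (Res Q)).2 (h.fg hn))
  obtain ⟨S, rfl⟩ := hfin.exists_finset_coe
  obtain ⟨V₀, hV₀⟩ : ∃ V₀ : Subgroup (Res Q), V₀ = ⨅ x : {U' : Subgroup (Res Q) //
      U'.FiniteIndex ∧ U'.index ≤ U.index}, x.1 := ⟨_, rfl⟩
  have h1 : V₀.FiniteIndex := by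
    rw [hV₀]
    exact finiteIndex_iInf_of_le hS _ fun x => x.2
  have h2 : V₀.Characteristic := by
    refine Subgroup.characteristic_iff_le_comap.2 fun ϕ x hx => ?_
    rw [Subgroup.mem_comap, hV₀, Subgroup.mem_iInf]
    rintro ⟨U', h3, h4⟩
    rw [hV₀, Subgroup.mem_iInf] at hx
    have h5 : (U'.comap ϕ.toMonoidHom).index = U'.index :=
      Subgroup.index_comap_of_surjective _ ϕ.surjective
    exact hx ⟨U'.comap ϕ.toMonoidHom, ⟨by rw [h5]; exact h3.index_ne_zero⟩, by rwa [h5]⟩
  have h3 : (V₀.map (Res Q).subtype).Normal := inferInstance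
  have h4 := h.res_min h3 (Subgroup.map_subtype_le V₀) (by
    rw [Subgroup.relIndex, Subgroup.subgroupOf,
      Subgroup.comap_map_eq_self_of_injective (Subgroup.subtype_injective _)]
    exact h1.index_ne_zero)
  have h5 : V₀ = ⊤ := by
    refine eq_top_iff.2 fun x _ => ?_
    have h6 : (x : Q) ∈ V₀.map (Res Q).subtype := by
      rw [h4]
      exact x.2
    obtain ⟨y, hy, hyx⟩ := h6
    rwa [← Subtype.ext hyx]
  refine eq_top_iff.2 ?_
  rw [← h5, hV₀]
  exact iInf_le (fun x : {U' : Subgroup (Res Q) // U'.FiniteIndex ∧ U'.index ≤ U.index} => x.1)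
    ⟨U, hU, le_rfl⟩

/-- infinite simple groups of subexponential growth are not virtually solvable -/
theorem simple_not_vs {T : Type} [Group T] (hs : IsSimpleGroup T) (hT : SubG T)
    (hinf : Infinite T) : ¬ VSm (⊥ : Subgroup T) := by
  rintro ⟨P, hP, n, hn⟩
  have h1 : P.normalCore = ⊤ := by
    refine (hs.eq_bot_or_eq_top_of_normal _ P.normalCore_normal).resolve_left fun h => ?_
    have h2 : (⊥ : Subgroup T).FiniteIndex := by
      rw [← h]
      infer_instance
    have h3 := h2.index_ne_zero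
    rw [Subgroup.index_bot] at h3
    exact not_finite_iff_infinite.2 hinf (Nat.finite_of_card_ne_zero h3)
  have h2 : P = ⊤ := top_le_iff.1 (h1 ▸ P.normalCore_le)
  rw [h2] at hn
  have h3 : ⁅(⊤ : Subgroup T), (⊤ : Subgroup T)⁆ = (⊥ : Subgroup T) := by
    refine (hs.eq_bot_or_eq_top_of_normal _ (Subgroup.commutator_normal _ _)).resolve_right
      fun h => ?_
    have h4 : ∀ n, ds (⊤ : Subgroup T) n = ⊤ := by
      intro n
      induction n with
      | zero => rfl
      | succ n ih =>
        show ⁅ds (⊤ : Subgroup T) n, ds (⊤ : Subgroup T) n⁆ = ⊤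
        rw [ih, h]
    rw [h4 n] at hn
    have := hs.toNontrivial
    exact bot_ne_top (le_antisymm bot_le hn)
  have hcomm : ∀ a b : T, a * b = b * a := by
    intro a b
    have h4 := Subgroup.commutator_mem_commutator (Subgroup.mem_top a) (Subgroup.mem_top b)
    rw [h3, Subgroup.mem_bot] at h4
    have h5 : a * b * a⁻¹ * b⁻¹ = 1 := h4
    have h6 : a * b = (a * b * a⁻¹ * b⁻¹) * (b * a) := by group
    rw [h6, h5, one_mul]
  let inst : CommGroup T := { (inferInstance : Group T) with mul_comm := hcomm }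
  have hfg : Group.FG T := hT.fg
  obtain ⟨x, hx⟩ := @exists_ne T hs.toNontrivial 1
  obtain ⟨m, hm0, hm⟩ := ab_sep hx
  have h5 : (powMonoidHom m : T →* T).range = ⊥ := by
    refine (hs.eq_bot_or_eq_top_of_normal _ inferInstance).resolve_right fun h => ?_
    obtain ⟨z, hz⟩ : x ∈ (powMonoidHom m : T →* T).range := by
      rw [h]
      exact Subgroup.mem_top x
    exact hm z hz
  refine not_finite_iff_infinite.2 hinf (ab_finite hm0 fun z => ?_)
  have h6 : z ^ m ∈ (powMonoidHom m : T →* T).range := ⟨z, rfl⟩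
  rwa [h5, Subgroup.mem_bot] at h6

/-- simple or residually finite -/
theorem JN.dichotomy (h : JN Q) (h0 : Res Q ≠ ⊥) : ∃ M : Subgroup (Res Q), ∃ _ : M.Normal,
    IsSimpleGroup (Res Q ⧸ M) ∧ SubG (Res Q ⧸ M) ∧ ¬ VNm (⊥ : Subgroup (Res Q ⧸ M)) := by
  have hfg : (Res Q).FG := h.fg Res_normal
  have hsub : SubG (Res Q) := h.sub.sub hfg
  have hnt : Nontrivial (Res Q) := (Subgroup.nontrivial_iff_ne_bot _).2 h0
  obtain ⟨M, hM, hM1, hmax⟩ := exists_max (G := Res Q) (fun N => N ≠ ⊤) bot_ne_top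
    fun c hne hch hc _ h1 => by
      have h2 : (sSup c).FG := by
        rw [h1]
        exact Group.fg_def.1 hsub.fg
      have h3 := chain_fg hne hch h2
      exact (hc _ h3).2 h1
  have hsur := QuotientGroup.mk'_surjective M
  have hs : IsSimpleGroup (Res Q ⧸ M) := by
    have hnt' : Nontrivial (Res Q ⧸ M) := by
      obtain ⟨x, hx⟩ : ∃ x, x ∉ M := by
        by_contra hcon
        push Not at hcon
        exact hM1 (eq_top_iff.2 fun x _ => hcon x)
      exact ⟨x, 1, fun h1 => hx ((QuotientGroup.eq_one_iff x).1 h1)⟩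
    refine ⟨fun X hX => ?_⟩
    by_cases h1 : X.comap (QuotientGroup.mk' M) = ⊤
    · right
      have h3 := congrArg (Subgroup.map (QuotientGroup.mk' M)) h1
      rwa [Subgroup.map_comap_eq_self_of_surjective hsur, ← MonoidHom.range_eq_map,
        MonoidHom.range_eq_top.2 hsur] at h3
    · left
      have h2 := hmax (X.comap (QuotientGroup.mk' M)) inferInstance h1 (by
        intro w hw
        rw [Subgroup.mem_comap, show QuotientGroup.mk' M w = 1 from
          (QuotientGroup.eq_one_iff w).2 hw]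
        exact one_mem _)
      have h3 := congrArg (Subgroup.map (QuotientGroup.mk' M)) h2
      rwa [Subgroup.map_comap_eq_self_of_surjective hsur,
        (Subgroup.map_eq_bot_iff M).2 (by rw [QuotientGroup.ker_mk'])] at h3
  have hT : SubG (Res Q ⧸ M) := hsub.map _ hsur
  refine ⟨M, hM, hs, hT, fun hv => simple_not_vs hs hT ?_ hv.vs⟩
  by_contra hfin
  rw [not_infinite_iff_finite] at hfin
  exact hM1 (h.res_perfect M Subgroup.finiteIndex_of_finite_quotient)

end Pool.Agent.H2SlowRed
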