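import Pool.Agent.H2SlowRed.Main
import Pool.Agent.FullLaws.Final
import Mathlib.GroupTheory.RegularWreathProduct

/-!
# Reduction to groups with two generators

If `G` is generated by `s 0, …, s (d - 1)` then `G` is a quotient of a subgroup of finite index of
the subgroup of the wreath product of `G` and the cyclic group of order `d` which is generated by
`(s 0, …, s (d - 1))` and the shift.
-/

set_option autoImplicit false

namespace Pool.Agent.H2SlowRed

open Pool.Agent.FullLaws Pool.Agent.Tracks RegularWreathProduct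

/-! ### subgroups of virtually nilpotent groups -/

theorem VNm.subgroup {G : Type} [Group G] (h : VNm (⊥ : Subgroup G)) (L : Subgroup G) :
    VNm (⊥ : Subgroup L) := by
  obtain ⟨P, h1, n, h2⟩ := h
  refine ⟨P.subgroupOf L, inferInstance, n, ?_⟩
  have h3 : (lc (P.subgroupOf L) n).map L.subtype ≤ ⊥ := by
    rw [lc_map]
    refine (lc_mono ?_ n).trans h2
    rw [Subgroup.subgroupOf_map_subtype]
    exact inf_le_left
  rw [Subgroup.map_le_iff_le_comap] at h3
  intro x hx
  exact Subgroup.mem_bot.2 (Subtype.ext (Subgroup.mem_bot.1 (h3 hx)))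

/-! ### the group -/

section wreath

variable {G A : Type} [Group G] [CommGroup A]

/-- the group generated by `(s, 1)` and `(1, τ)` -/
def Tg (s : A → G) (τ : A) : Subgroup (G ≀ᵣ A) :=
  Subgroup.closure {⟨s, 1⟩, inl τ}

theorem mem_a (s : A → G) (τ : A) : (⟨s, 1⟩ : G ≀ᵣ A) ∈ Tg s τ :=
  Subgroup.subset_closure (by simp)

theorem mem_t (s : A → G) (τ : A) : (inl τ : G ≀ᵣ A) ∈ Tg s τ :=
  Subgroup.subset_closure (by simp)

/-- the first generator -/
def ga (s : A → G) (τ : A) : Tg s τ := ⟨⟨s, 1⟩, mem_a s τ⟩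

/-- the second generator -/
def gt (s : A → G) (τ : A) : Tg s τ := ⟨inl τ, mem_t s τ⟩

theorem closure_gen (s : A → G) (τ : A) :
    Subgroup.closure ({ga s τ, gt s τ} : Set (Tg s τ)) = ⊤ := by
  refine eq_top_iff.2 fun x _ => ?_
  have h1 : (Subgroup.closure ({ga s τ, gt s τ} : Set (Tg s τ))).map (Tg s τ).subtype =
      Tg s τ := by
    rw [MonoidHom.map_closure]
    show _ = Subgroup.closure _
    congr 1
    rw [Set.image_pair]
    rfl
  have h2 : (x : G ≀ᵣ A) ∈ (Subgroup.closure ({ga s τ, gt s τ} : Set (Tg s τ))).map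
      (Tg s τ).subtype := by
    rw [h1]
    exact x.2
  obtain ⟨y, hy, hyx⟩ := h2
  rwa [← Subtype.ext hyx]

theorem left_mem {S : Finset G} {s : A → G} {τ : A} (hs : ∀ i, s i = 1 ∨ s i ∈ S) :
    ∀ l : List (Tg s τ), (∀ x ∈ l, (x = ga s τ ∨ x = gt s τ) ∨
      (x⁻¹ = ga s τ ∨ x⁻¹ = gt s τ)) → ∀ i, ((l.prod : Tg s τ) : G ≀ᵣ A).left i ∈
        ballL S l.length := by
  intro l
  induction l with
  | nil => exact fun _ i => ⟨[], by simp, by simp, by simp⟩
  | cons x l ih =>
    intro h i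
    have h1 := ih fun y hy => h y (List.mem_cons_of_mem _ hy)
    have hb : ∀ i, s i ∈ ballL S 1 ∧ (s i)⁻¹ ∈ ballL S 1 := by
      intro i
      rcases hs i with h2 | h2
      · rw [h2, inv_one]
        exact ⟨⟨[], by simp, by simp, by simp⟩, ⟨[], by simp, by simp, by simp⟩⟩
      · exact ⟨⟨[s i], by simp, by simp [h2], by simp⟩,
          ⟨[(s i)⁻¹], by simp, by simp [h2], by simp⟩⟩
    have h2 : ∀ i, ((x : Tg s τ) : G ≀ᵣ A).left i ∈ ballL S 1 := by
      intro i
      rcases h x List.mem_cons_self with (h3 | h3) | (h3 | h3)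
      · rw [h3]
        exact (hb i).1
      · rw [h3]
        exact ⟨[], by simp, by simp, by simp [gt]⟩
      · have h4 : x = (ga s τ)⁻¹ := by rw [← h3, inv_inv]
        rw [h4]
        show (s ((1 : A) * i))⁻¹ ∈ _
        exact (hb _).2
      · have h4 : x = (gt s τ)⁻¹ := by rw [← h3, inv_inv]
        rw [h4]
        exact ⟨[], by simp, by simp, by simp [gt]⟩
    rw [List.prod_cons, List.length_cons, add_comm]
    exact ballL_mul (h2 i) (h1 _)

theorem ncard_le [Finite A] {S : Finset G} {s : A → G} {τ : A} (hs : ∀ i, s i = 1 ∨ s i ∈ S)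
    {S₂ : Finset (Tg s τ)} (hS₂ : ∀ x ∈ S₂, x = ga s τ ∨ x = gt s τ) (n : ℕ) :
    (ballL S₂ n).ncard ≤ (ballL S n).ncard ^ Nat.card A * Nat.card A := by
  have hfin : Finite (ballL S n) := ballL_finite S n
  have h1 : ∀ x ∈ ballL S₂ n, ∀ i, (x : G ≀ᵣ A).left i ∈ ballL S n := by
    rintro _ ⟨l, h2, h3, rfl⟩ i
    refine ballL_mono h2 (left_mem hs l (fun x hx => ?_) i)
    rcases h3 x hx with h4 | h4
    · exact Or.inl (hS₂ x h4)
    · exact Or.inr (hS₂ _ h4)
  have h2 : Nat.card (ballL S₂ n) ≤ Nat.card ((A → ballL S n) × A) := by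
    refine Nat.card_le_card_of_injective
      (fun x => (fun i => ⟨(x : Tg s τ).1.left i, h1 x.1 x.2 i⟩, (x : Tg s τ).1.right)) ?_
    intro x y h
    rw [Prod.mk.injEq] at h
    refine Subtype.ext (Subtype.ext (RegularWreathProduct.ext ?_ h.2))
    funext i
    exact congrArg Subtype.val (congrFun h.1 i)
  rw [Nat.card_prod, Nat.card_fun, Nat.card_coe_set_eq, Nat.card_coe_set_eq] at h2
  exact h2

theorem subG_Tg [Finite A] {S : Finset G} (hsub : Subexp S) {s : A → G} (τ : A)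
    (hs : ∀ i, s i = 1 ∨ s i ∈ S) : SubG (Tg s τ) := by
  classical
  refine ⟨{ga s τ, gt s τ}, by rw [Finset.coe_pair]; exact closure_gen s τ, fun c hc => ?_⟩
  obtain ⟨d, hd⟩ : ∃ d, d = Nat.card A := ⟨_, rfl⟩
  have hd0 : 0 < d := by rw [hd]; exact Nat.card_pos
  have hc0 : (0 : ℝ) < c := by linarith
  -- `b = c ^ (1 / 2)`, `b' = c ^ (1 / (2 d))`
  obtain ⟨b, hb1, hb⟩ : ∃ b : ℝ, 1 < b ∧ b ^ 2 = c :=
    ⟨Real.sqrt c, by rw [Real.lt_sqrt (by norm_num)]; simpa using hc, Real.sq_sqrt hc0.le⟩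
  obtain ⟨b', hb1', hb'⟩ : ∃ b' : ℝ, 1 < b' ∧ b' ^ d = b :=
    ⟨b ^ ((d : ℝ)⁻¹), Real.one_lt_rpow hb1 (inv_pos.2 (by exact_mod_cast hd0)),
      Real.rpow_inv_natCast_pow (by linarith) (by omega)⟩
  obtain ⟨N₁, hN₁⟩ := hsub b' hb1'
  obtain ⟨N₂, hN₂⟩ := Filter.eventually_atTop.1
    ((tendsto_pow_atTop_atTop_of_one_lt hb1).eventually_ge_atTop (d : ℝ))
  refine ⟨max N₁ N₂, fun n hn => ?_⟩
  have h1 : ((ballL ({ga s τ, gt s τ} : Finset (Tg s τ)) n).ncard : ℝ) ≤
      ((ballL S n).ncard : ℝ) ^ d * d := by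
    rw [hd]
    exact_mod_cast ncard_le hs (fun x hx => by simpa using hx) n
  have h2 := hN₁ n ((le_max_left _ _).trans hn)
  have h3 := hN₂ n ((le_max_right _ _).trans hn)
  have h4 : ((ballL S n).ncard : ℝ) ^ d < b ^ n := by
    have h5 : ((ballL S n).ncard : ℝ) ^ d < (b' ^ n) ^ d :=
      pow_lt_pow_left₀ h2 (Nat.cast_nonneg _) (by omega)
    rwa [← pow_mul, mul_comm n d, pow_mul, hb'] at h5
  have h5 : c ^ n = b ^ n * b ^ n := by rw [← hb, ← pow_mul, mul_comm 2 n, pow_mul, sq]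
  rw [h5]
  refine lt_of_le_of_lt h1 ?_
  calc ((ballL S n).ncard : ℝ) ^ d * d < b ^ n * d := by
        refine mul_lt_mul_of_pos_right h4 (by exact_mod_cast hd0)
    _ ≤ b ^ n * b ^ n := mul_le_mul_of_nonneg_left h3 (by positivity)

/-! ### `G` is a section -/

/-- the elements with trivial second component -/
def Bs (s : A → G) (τ : A) : Subgroup (Tg s τ) := (rightHom.comp (Tg s τ).subtype).ker

/-- the coordinates -/
def co (s : A → G) (τ : A) (i : A) : Bs s τ →* G where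
  toFun x := (x : Tg s τ).1.left i
  map_one' := rfl
  map_mul' x y := by
    have h1 : (x : Tg s τ).1.right = 1 := x.2
    show (x : Tg s τ).1.left i * (y : Tg s τ).1.left ((x : Tg s τ).1.right⁻¹ * i) = _
    rw [h1, inv_one, one_mul]

theorem eq_one_of_co {s : A → G} {τ : A} {x : Tg s τ} (hx : x ∈ Bs s τ)
    (h : ∀ i, co s τ i ⟨x, hx⟩ = 1) : x = 1 :=
  Subtype.ext (RegularWreathProduct.ext (funext h) hx)

theorem co_surj {s : A → G} {τ : A} (hτ : ∀ q : A, ∃ m : ℕ, τ ^ m = q)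
    (hs : Subgroup.closure (Set.range s) = ⊤) : Function.Surjective (co s τ 1) := by
  rw [← MonoidHom.range_eq_top, eq_top_iff, ← hs, Subgroup.closure_le]
  rintro _ ⟨q, rfl⟩
  have hq : (inl q : G ≀ᵣ A) ∈ Tg s τ := by
    obtain ⟨m, rfl⟩ := hτ q
    rw [map_pow]
    exact pow_mem (mem_t s τ) m
  have h1 : (inl q)⁻¹ * (⟨s, 1⟩ : G ≀ᵣ A) * inl q ∈ Tg s τ :=
    mul_mem (mul_mem (inv_mem hq) (mem_a s τ)) hq
  refine ⟨⟨⟨_, h1⟩, ?_⟩, ?_⟩
  · show q⁻¹ * 1 * q = 1
    group
  · show ((inl q)⁻¹ * (⟨s, 1⟩ : G ≀ᵣ A) * inl q).left 1 = s q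
    simp

end wreath

/-! ### the law -/

theorem reduced_rep {d : ℕ} (hd : 0 < d) {L : List (ℕ × Bool)} (hL : Alt L) :
    FreeGroup.IsReduced (L.flatMap (List.replicate d)) := by
  induction L with
  | nil => simp
  | cons a L ih =>
    rw [List.flatMap_cons]
    refine List.isChain_append.2 ⟨List.isChain_replicate_of_rel _ fun _ => rfl, ih hL.tail, ?_⟩
    intro x hx y hy
    have hx' : x = a := by
      have := List.mem_of_mem_getLast? hx
      exact List.eq_of_mem_replicate this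
    cases L with
    | nil => simp at hy
    | cons b L =>
      obtain ⟨d, rfl⟩ := Nat.exists_eq_add_of_lt hd
      have hy' : y = b := by
        rw [List.flatMap_cons, show 0 + d + 1 = d + 1 by omega, List.replicate_succ] at hy
        simpa [eq_comm] using hy
      rw [hx', hy']
      exact fun h => absurd h hL.1

theorem lift_rep {H : Type} [Group H] (f : ℕ → H) (d : ℕ) (L : List (ℕ × Bool)) :
    FreeGroup.lift f (FreeGroup.mk (L.flatMap (List.replicate d))) =
      ev (fun i => f i ^ d) L := by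
  rw [FreeGroup.lift_mk]
  induction L with
  | nil => rfl
  | cons a L ih =>
    rw [List.flatMap_cons, List.map_append, List.prod_append, ih, ev_cons, List.map_replicate,
      List.prod_replicate]
    congr 1
    obtain ⟨i, b⟩ := a
    cases b <;> simp [letter]

theorem ev_map {H K : Type} [Group H] [Group K] (φ : H →* K) (lam : ℕ → H)
    (L : List (ℕ × Bool)) : φ (ev lam L) = ev (fun i => φ (lam i)) L := by
  induction L with
  | nil => simp [ev]
  | cons a L ih =>
    rw [ev_cons, ev_cons, map_mul, ih]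
    congr 1
    obtain ⟨i, b⟩ := a
    cases b <;> simp [letter]

/-- reduction to two generators -/
theorem two_generated {G : Type} [Group G] (hG : SubG G) (hn : ¬ VNm (⊥ : Subgroup G))
    {w : FreeGroup ℕ} (hw : w ≠ 1) (hlaw : ∀ f : ℕ → G, FreeGroup.lift f w = 1) :
    ∃ (H : Type) (_ : Group H) (w' : FreeGroup ℕ), w' ≠ 1 ∧ SubG H ∧ ¬ VNm (⊥ : Subgroup H) ∧
      (∀ f : ℕ → H, FreeGroup.lift f w' = 1) ∧
      ∃ a b : H, Subgroup.closure {a, b} = ⊤ := by
  classical
  obtain ⟨S, hS, hsub⟩ := hG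
  obtain ⟨L, hL, hL0, hL1⟩ := exists_alt hw
  obtain ⟨T, hT⟩ : ∃ T : Finset G, T = insert 1 S := ⟨_, rfl⟩
  have hT0 : T.card ≠ 0 := by
    rw [hT]
    exact Finset.card_ne_zero_of_mem (Finset.mem_insert_self 1 S)
  have : NeZero T.card := ⟨hT0⟩
  let A := Multiplicative (ZMod T.card)
  have hAfin : Finite A := inferInstanceAs (Finite (ZMod T.card))
  have hAcard : Nat.card A = Nat.card T := by
    have h1 : Nat.card A = T.card := Nat.card_zmod _
    rw [h1, Nat.card_eq_fintype_card, Fintype.card_coe]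
  obtain ⟨e⟩ : Nonempty (A ≃ T) := (Finite.card_eq (α := A) (β := T)).1 hAcard
  let s : A → G := fun i => (e i : G)
  let τ : A := Multiplicative.ofAdd 1
  have hTm : ∀ x ∈ T, x = 1 ∨ x ∈ S := by
    intro x hx
    rw [hT, Finset.mem_insert] at hx
    exact hx
  have hs : ∀ i, s i = 1 ∨ s i ∈ S := fun i => hTm _ (e i).2
  have hs' : Subgroup.closure (Set.range s) = ⊤ := by
    refine eq_top_iff.2 ?_
    rw [← hS]
    refine Subgroup.closure_mono fun x hx => ?_
    have h1 : x ∈ T := by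
      rw [hT]
      exact Finset.mem_insert_of_mem hx
    exact ⟨e.symm ⟨x, h1⟩, by simp [s]⟩
  have hτ : ∀ q : A, ∃ m : ℕ, τ ^ m = q := by
    intro q
    refine ⟨(Multiplicative.toAdd q).val, ?_⟩
    show Multiplicative.ofAdd 1 ^ _ = q
    rw [← ofAdd_nsmul, nsmul_one, ZMod.natCast_zmod_val]
    rfl
  obtain ⟨d, hd⟩ : ∃ d, d = Nat.card A := ⟨_, rfl⟩
  have hd0 : 0 < d := by rw [hd]; exact Nat.card_pos
  refine ⟨Tg s τ, inferInstance, FreeGroup.mk (L.flatMap (List.replicate d)), ?_,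
    subG_Tg hsub τ hs, ?_, ?_, ga s τ, gt s τ, closure_gen s τ⟩
  · intro h
    have h1 := (reduced_rep hd0 hL)
    have h2 : (FreeGroup.mk (L.flatMap (List.replicate d))).toWord = [] :=
      FreeGroup.toWord_eq_nil_iff.2 h
    rw [FreeGroup.toWord_mk, h1.reduce_eq] at h2
    cases L with
    | nil => exact hL0 rfl
    | cons a L =>
      obtain ⟨d, rfl⟩ := Nat.exists_eq_add_of_lt hd0
      simp at h2
  · intro hv
    refine hn ?_
    have h1 := (hv.subgroup (Bs s τ)).map (co s τ 1) (co_surj hτ hs')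
    rwa [Subgroup.map_bot] at h1
  · intro f
    rw [lift_rep]
    have hf : ∀ i, f i ^ d ∈ Bs s τ := by
      intro i
      show rightHom (((f i ^ d : Tg s τ) : G ≀ᵣ A)) = 1
      rw [Subgroup.coe_pow, map_pow, hd, pow_card_eq_one']
    have h1 : ev (fun i => f i ^ d) L =
        ((ev (fun i => (⟨f i ^ d, hf i⟩ : Bs s τ)) L : Bs s τ) : Tg s τ) :=
      (ev_map (Bs s τ).subtype (fun i => (⟨f i ^ d, hf i⟩ : Bs s τ)) L).symm
    rw [h1]
    refine eq_one_of_co (Subtype.prop _) fun i => ?_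
    show co s τ i (ev (fun i => (⟨f i ^ d, hf i⟩ : Bs s τ)) L) = 1
    rw [ev_map]
    exact hL1 G hlaw _

end Pool.Agent.H2SlowRed
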